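import Pool.Agent.V2450.Deligne.ModSuper

/-!
# Central values of twists of elliptic curves over totally real fields

Let `E` be an elliptic curve over `ℚ`, let `F` be a totally real number field and let `A` be an elliptic
curve over `F` which is the twist of `E_F` with a quadratic character `χ` of `F` which is totally even
or trivial (for totally odd `χ` replace `E` by its twist with an imaginary quadratic field). Let `R` be
the union of all totally real number fields, `G = Gal(R/ℚ)`, `k` an algebraic closure of `ℚ`, and let
`(V, ρ)` be the representation of `G` over `k` which is induced from `χ`, so that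
`h¹(Res A) ⊗ k = h¹(E) ⊗ ρ`.

* `Sides`: there is only one index `i` (the point `1`). `(D i).crit V ρ` says that `(V, ρ)` is a
  representation of `G` over `k` with an open kernel which over some totally real number field with a
  supersolvable Galois group over `ℚ` is a direct sum of characters; `(D i).L V ρ` and `(D i).c V ρ` are
  the value `L(M, 1)` and the period `c^+(M(1))` for `M = h¹(E) ⊗ ρ`, elements of `k ⊗ ℂ`.
* `Conj`: Deligne's conjecture `L = e * c`, `e ∈ k`.
* `Basic`: representations are semisimple; `L` is multiplicative in direct sums, and `c` is, up to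
  factors in `kˣ`; `c` is invertible.
* `IsModular`: `basic`; `dirichlet`: Deligne's conjecture is true for the twists of `h¹(E)` with
  Dirichlet characters (Shimura; `E` is modular); `shimura`: for every totally real number field `K`,
  the field of the subgroup `H` of `G`, there is a number `u` such that for all `ρ = Ind χ`, `χ` a
  character of `K` of finite order, `L` is an element of `k` times `u` times `c` (Shimura's theorem for
  the Hilbert modular form of `E_K` and Deligne's formula for the period of `M ⊗ ρ`).
* `IndFrom H ρ`: `ρ` is induced from a character of `H`.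
* `SomeValue D N`, `N = G_L`: for all fields `K ⊆ L`, `K ≠ ℚ`, there is a reducible `ρ` with
  `IndFrom G_K ρ`, which is over `L` a direct sum of characters, and with a value which is not zero. If
  `L` is abelian over `ℚ` this is true (take `ρ = Ind (ψ|K)`, where `ψ` is an even Dirichlet character of
  prime power conductor; Rohrlich).
* `Supersolvable Q`: the group `Q` has a chain of normal subgroups with cyclic quotients.
* `Ab ρ N`: the subgroup `N` acts through an abelian quotient; this is true if `L ⊇ F`.
* `hL`, `hc`: the value `L(1, A) ∈ ℂ` and `Ω(A) ∈ ℂ` give `(D i).L V ρ` and, up to a factor in `kˣ`,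
  `(D i).c V ρ` (the period of `h¹(Res A)(1)` is `Ω(A)`).
-/

set_option autoImplicit false

namespace Pool.Agent.Results.MP_90f827_nt.TwistsOverTotallyRealFields

open Pool.Agent.V2450.Deligne

open scoped TensorProduct in
/-- Let `L ⊇ F` be a totally real number field, Galois over `ℚ` with a supersolvable group `G ⧸ N`. If
`L(1, A)` is not zero, then it is a rational number `≠ 0` times `Ω(A)`. -/
theorem result (k G : Type) [Field k] [IsAlgClosed k] [Algebra ℚ k] [Group G] (ι : Type)
    (D : ι → Sides k G (k ⊗[ℚ] ℂ)) (hD : IsModular D) (N : Subgroup G) [N.Normal]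
    (hQ : Supersolvable (G ⧸ N)) (hne : SomeValue D N) (i : ι) (V : Type) [AddCommGroup V]
    [Module k V] (hV : Nontrivial V) (ρ : Representation k G V) (hcrit : (D i).crit V ρ)
    (hab : Ab ρ N) (L1 Ω : ℂ) (hL : (D i).L V ρ = (1 : k) ⊗ₜ[ℚ] L1)
    (hc : ∃ u : k, u ≠ 0 ∧ (D i).c V ρ = u ⊗ₜ[ℚ] Ω) (h0 : L1 ≠ 0) :
    ∃ q : ℚ, q ≠ 0 ∧ L1 = (q : ℂ) * Ω := by
  obtain ⟨e, he⟩ := (conj_modular_super hD N hQ hne i V ρ hcrit hV hab).2
  obtain ⟨u, _, hu⟩ := hc
  rw [hL, hu, Algebra.TensorProduct.algebraMap_apply, Algebra.TensorProduct.tmul_mul_tmul,
    one_mul] at he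
  obtain ⟨q, hq⟩ := descent ℚ k ℂ L1 Ω _ he
  have hq' : L1 = (q : ℂ) * Ω := by
    rw [hq, Algebra.smul_def]
    rfl
  refine ⟨q, ?_, hq'⟩
  rintro rfl
  apply h0
  rw [hq', Rat.cast_zero, zero_mul]

end Pool.Agent.Results.MP_90f827_nt.TwistsOverTotallyRealFields
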