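import Pool.Agent.V1194.LP.Real

/-!
# The central value of an elliptic curve over a number field from the numbers of points

Let `A` be an elliptic curve over a number field `F`, `S` a set of primes of good reduction containing almost
all primes, `a_v = q_v + 1 - #A(k_v)` and `L(s) = ∏_{v ∈ S} (1 - a_v q_v^{-s} + q_v^{1-2s})⁻¹`, `Re s > 3/2`.
The missing Euler factors at `s = 1` are nonzero rational numbers, so that in the question

  `L(1, A) ≠ 0 ⟹ L(1, A)/Ω(A) ∈ ℚ`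

`L(1, A)` may be replaced by the value `L(1)`; and since all numbers are real, by `|L(1)|` and `|Ω(A)|`. Let
`p_k(v) = α_v^k + β_v^k` for the roots of `X² - a_v X + q_v`, `γ > π/2` any real number, and

`V(X) = ∑_{v ∈ S} ∑_{k ≥ 1} p_k(v)/(k q_v^k) · cos(γu)/Γ(1 + u)`,  `u = k log q_v / log X`.

Suppose that `L(s)` has a meromorphic continuation to a neighbourhood of the real interval `[1, 3/2]`. Then,
without any hypothesis on the zeros of `L(s)`:

1. `V(X)` converges absolutely, and `V(X) = log |B| - r (log log X - λ_γ) + O(1/log X)`, where `r` is the order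
   and `B` the leading coefficient at `s = 1`.
2. If `L(s)` is analytic at `s = 1`, then `exp V(X) → |L(1)|`; `L(1) ≠ 0` if and only if `V(X)` is bounded below
   for `X → ∞`, and then `V(X) = log |L(1)| + O(1/log X)`.
3. For every real `Ω`: the statement `L(1) ≠ 0 ⟹ |L(1)| ∈ ℚ |Ω|` holds if and only if every nonzero limit of
   `exp V(X)` is a rational multiple of `|Ω|`. So the question is an explicit one about the numbers of points
   of `A` over the finite fields `k_v`, and the rational number `|L(1)/Ω|` is a limit of explicit expressions.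
-/

set_option autoImplicit false

namespace Pool.Agent.Results.MP_90f827_nt.ValuesFromPoints

open Filter Topology Set NumberField IsDedekindDomain

variable {n : ℕ}

/-- The set `A` of homogeneous polynomials over `R` in `n` variables defines a projective scheme over `R`. For a
field `κ` with `q` elements and a homomorphism `R → κ` this is `(q - 1)` times the number of its points with
coordinates in `κ`: the number of the nonzero solutions of the equations. -/
noncomputable def cone {R : Type} [CommRing R] (A : Set (MvPolynomial (Fin n) R)) {κ : Type}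
    [CommRing κ] (φ : R →+* κ) : ℕ :=
  Nat.card {u : Fin n → κ // u ≠ 0 ∧ ∀ f ∈ A, MvPolynomial.eval₂ φ u f = 0}

variable {F : Type} [Field F] [NumberField F]

/-- The norm `q_v` of a prime. -/
noncomputable def nrm (v : HeightOneSpectrum (𝓞 F)) : ℝ := (Ideal.absNorm v.asIdeal : ℝ)

/-- `a_v = q_v + 1 - #A(k_v)`. -/
noncomputable def av (A : Set (MvPolynomial (Fin n) (𝓞 F))) (v : HeightOneSpectrum (𝓞 F)) : ℝ :=
  nrm v + 1 - cone A (Ideal.Quotient.mk v.asIdeal) / (nrm v - 1)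

/-- `α^k + β^k` for the roots `α`, `β` of `X² - tX + q` (the trace of the `k`-th power of the companion
matrix). -/
noncomputable def powerSum (t q : ℝ) (k : ℕ) : ℝ :=
  ((!![t, -q; 1, 0] : Matrix (Fin 2) (Fin 2) ℝ) ^ k).trace

variable {S : Set (HeightOneSpectrum (𝓞 F))}

/-- `L(s)` is the L-series of `A` with the primes of `S` (of good reduction, `|a_v| ≤ 2√q_v`): the product of
the Euler factors `(1 - a_v q_v^{-s} + q_v^{1-2s})⁻¹` for `Re s > 3/2`, meromorphic at the points of the real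
interval `[1, 3/2]`. -/
structure IsLSeries (A : Set (MvPolynomial (Fin n) (𝓞 F))) (S : Set (HeightOneSpectrum (𝓞 F)))
    (L : ℂ → ℂ) : Prop where
  hasse : ∀ v : S, |av A v.1| ≤ 2 * √(nrm v.1)
  prod : ∀ s : ℂ, 3 / 2 < s.re → L s = ∏' v : S,
    (1 - (av A v.1 : ℂ) * (nrm v.1 : ℂ) ^ (-s) + (nrm v.1 : ℂ) ^ (1 - 2 * s))⁻¹
  mero : ∀ x : ℝ, 1 ≤ x → x ≤ 3 / 2 → MeromorphicAt L (x : ℂ)

/-- The term `p_k(v)/(k q_v^k) · cos(γu)/Γ(1 + u)`, `u = k log q_v / log X`. -/
noncomputable def term (A : Set (MvPolynomial (Fin n) (𝓞 F))) (γ X : ℝ) (v : S) (k : ℕ) : ℝ :=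
  powerSum (av A v.1) (nrm v.1) k * Real.cos (γ * (k * Real.log (nrm v.1) / Real.log X)) /
    (k * nrm v.1 ^ k * Real.Gamma (1 + k * Real.log (nrm v.1) / Real.log X))

/-- `V(X)`, the sum over `v ∈ S` and `k ≥ 1` (here `k = i.2 + 1`). -/
noncomputable def V (A : Set (MvPolynomial (Fin n) (𝓞 F))) (S : Set (HeightOneSpectrum (𝓞 F)))
    (γ X : ℝ) : ℝ := ∑' i : S × ℕ, term A γ X i.1 (i.2 + 1)

/-- `λ_γ`, the real part of `∫_0^∞ (e^{-t} - e^{iγt}/Γ(1 + t)) dt/t`. -/
noncomputable def lam (γ : ℝ) : ℝ := (∫ t in Ioi (0 : ℝ),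
  (Complex.exp (-(t : ℂ)) -
    Complex.exp ((γ * t : ℝ) * Complex.I) * ((Real.Gamma (1 + t))⁻¹ : ℝ)) / t).re

open Pool.Agent.V1194.LP

variable {A : Set (MvPolynomial (Fin n) (𝓞 F))} {L : ℂ → ℂ}

theorem q_two (v : HeightOneSpectrum (𝓞 F)) : 2 ≤ nrm v := by
  unfold nrm
  exact_mod_cast Pool.Agent.H921R2.TatePole.two_le_nm v

theorem sq_le (hL : IsLSeries A S L) (v : S) : av A v.1 ^ 2 ≤ 4 * nrm v.1 := by
  have h1 := hL.hasse v
  have h0 : 0 ≤ nrm v.1 := by linarith [q_two v.1]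
  have h2 : av A v.1 ^ 2 ≤ (2 * √(nrm v.1)) ^ 2 := by
    rw [← sq_abs (av A v.1)]
    exact pow_le_pow_left₀ (abs_nonneg _) h1 2
  rw [mul_pow, Real.sq_sqrt h0] at h2
  linarith

/-- the matrices -/
noncomputable def mat (A : Set (MvPolynomial (Fin n) (𝓞 F))) (v : S) : Matrix (Fin 2) (Fin 2) ℂ :=
  cc 1 (av A v.1) (nrm v.1)

/-- the coefficients -/
noncomputable def cf (A : Set (MvPolynomial (Fin n) (𝓞 F))) (v : S) (k : ℕ) : ℝ :=
  (1 : ℝ) ^ k * powerSum (av A v.1) (nrm v.1) k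

theorem eul (hL : IsLSeries A S L) :
    Pool.Agent.V11288.LZ.Eul 1 (1 / 2) (fun v : S => nrm v.1) (mat A) := by
  refine Pool.Agent.V11288.LZ.eul_nf fun v z hz => ?_
  rw [cc_root zero_le_one (sq_le hL v) hz, one_mul, Real.sqrt_eq_rpow]
  exact le_rfl

theorem det_eq (hL : IsLSeries A S L) (s : ℂ) (hs : 1 + 1 / 2 < s.re) :
    L s = ∏' v : S, ((1 - ((nrm v.1 : ℝ) : ℂ) ^ (-s) • mat A v).det)⁻¹ := by
  rw [hL.prod s (by linarith)]
  refine tprod_congr fun v => ?_
  have h0 : (nrm v.1 : ℂ) ≠ 0 := by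
    have : nrm v.1 ≠ 0 := by linarith [q_two v.1]
    exact_mod_cast this
  unfold mat
  rw [cc_det]
  congr 1
  have h9 : (nrm v.1 : ℂ) ^ (1 - 2 * s) = (nrm v.1 : ℂ) * ((nrm v.1 : ℂ) ^ (-s)) ^ 2 := by
    rw [show (1 : ℂ) - 2 * s = 1 + (2 : ℕ) * (-s) by push_cast; ring, Complex.cpow_add _ _ h0,
      Complex.cpow_one, Complex.cpow_nat_mul]
  rw [h9]
  push_cast
  ring

theorem term_eq (γ X : ℝ) (i : S × ℕ) :
    ra (fun v : S => nrm v.1) (cf A) 1 γ X i = term A γ X i.1 (i.2 + 1) := by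
  unfold ra term cf
  rw [Real.rpow_one, one_pow, one_mul]

theorem V_eq (γ X : ℝ) :
    ∑' i, ra (fun v : S => nrm v.1) (cf A) 1 γ X i = V A S γ X :=
  tsum_congr fun i => term_eq γ X i

theorem htr (v : S) (k : ℕ) : (mat A v ^ k).trace = (cf A v k : ℂ) := cc_trace _ _ _ k

/-- the limit of `exp V` -/
theorem exp_lim (hL : IsLSeries A S L) {γ : ℝ} (hγ : Real.pi / 2 < γ) (ha : AnalyticAt ℂ L 1) :
    Tendsto (fun X : ℝ => Real.exp (V A S γ X)) atTop (𝓝 ‖L 1‖) := by
  obtain ⟨h1, -, -, -, -, -, h7⟩ := package (eul hL) (L := L) 1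
    (fun x hx => hL.mero x hx.1 (by linarith [hx.2])) (det_eq hL) hγ
  have h8 : Tendsto L (𝓝[≠] ((1 : ℝ) : ℂ)) (𝓝 (L 1)) := by
    rw [Complex.ofReal_one]
    exact ha.continuousAt.tendsto.mono_left nhdsWithin_le_nhds
  have h9 := ((h7 (L 1)).1 h8).norm
  refine h9.congr' ?_
  filter_upwards [eventually_gt_atTop 1] with X hX
  rw [Complex.norm_exp]
  congr 1
  unfold Pool.Agent.V11288.LZ.tot
  rw [tsum_re (h1 X hX), ← V_eq]
  exact tsum_congr fun i => tm_re' htr 1 γ X i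

/-- **The central value of an elliptic curve over a number field from the numbers of points.** -/
theorem result (A : Set (MvPolynomial (Fin n) (𝓞 F))) (S : Set (HeightOneSpectrum (𝓞 F))) (L : ℂ → ℂ)
    (hL : IsLSeries A S L) (γ : ℝ) (hγ : Real.pi / 2 < γ) :
    (∀ X : ℝ, 1 < X → Summable fun i : S × ℕ => |term A γ X i.1 (i.2 + 1)|) ∧
    (∃ (r : ℤ) (B : ℂ), B ≠ 0 ∧ meromorphicOrderAt L 1 = r ∧
      Tendsto (fun s : ℂ => L s / (s - 1) ^ r) (𝓝[≠] 1) (𝓝 B) ∧
      (fun X : ℝ => V A S γ X - (Real.log ‖B‖ - r * (Real.log (Real.log X) - lam γ))) =O[atTop]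
        (fun X : ℝ => 1 / Real.log X)) ∧
    (AnalyticAt ℂ L 1 →
      Tendsto (fun X : ℝ => Real.exp (V A S γ X)) atTop (𝓝 ‖L 1‖) ∧
      (L 1 ≠ 0 ↔ ∃ C : ℝ, ∀ᶠ X : ℝ in atTop, C ≤ V A S γ X) ∧
      (L 1 ≠ 0 → (fun X : ℝ => V A S γ X - Real.log ‖L 1‖) =O[atTop] (fun X : ℝ => 1 / Real.log X)) ∧
      ∀ Ω : ℝ, (L 1 ≠ 0 → ∃ x : ℚ, ‖L 1‖ = x * |Ω|) ↔
        ∀ l : ℝ, l ≠ 0 → Tendsto (fun X : ℝ => Real.exp (V A S γ X)) atTop (𝓝 l) →
          ∃ x : ℚ, l = x * |Ω|) := by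
  obtain ⟨h1, r, B, h2, h3, h4, h5, h6, h7, h8⟩ := real_package (eul hL) htr (L := L) 1
    (fun x hx => hL.mero x hx.1 (by linarith [hx.2])) (det_eq hL) hγ
  simp only [V_eq, Complex.ofReal_one] at h3 h4 h5 h6 h7 h8
  refine ⟨fun X hX => (h1 X hX).congr fun i => by rw [term_eq], ⟨r, B, h2, h3, h4, h5⟩,
    fun ha => ?_⟩
  have hlim := exp_lim hL hγ ha
  refine ⟨hlim, ⟨fun h => ?_, ?_⟩, fun h => ?_, fun Ω => ⟨fun h l hl hlt => ?_, fun h h0 => ?_⟩⟩
  · refine ⟨Real.log (‖L 1‖ / 2), ?_⟩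
    have hpos : 0 < ‖L 1‖ := norm_pos_iff.2 h
    filter_upwards [hlim.eventually (lt_mem_nhds (show ‖L 1‖ / 2 < ‖L 1‖ by linarith))] with X hX
    rw [Real.log_le_iff_le_exp (by linarith)]
    exact hX.le
  · rintro ⟨C, hC⟩ h0
    rw [h0, norm_zero] at hlim
    have h9 : Real.exp C ≤ 0 := ge_of_tendsto hlim (by
      filter_upwards [hC] with X hX
      exact Real.exp_le_exp.2 hX)
    exact absurd h9 (not_le.2 (Real.exp_pos C))
  · have h9 : meromorphicOrderAt L 1 = (0 : ℤ) := by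
      rw [ha.meromorphicOrderAt_eq, ha.analyticOrderAt_eq_zero.2 h]
      rfl
    rw [h3] at h9
    have h10 : r = 0 := by exact_mod_cast h9
    subst h10
    simp only [zpow_zero, div_one] at h4
    have h11 : B = L 1 := tendsto_nhds_unique h4
      (ha.continuousAt.tendsto.mono_left nhdsWithin_le_nhds)
    rw [h11] at h5
    simpa using h5
  · have h9 : l = ‖L 1‖ := tendsto_nhds_unique hlt hlim
    rw [h9]
    exact h (by
      intro h0
      rw [h0, norm_zero] at h9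
      exact hl h9)
  · exact h ‖L 1‖ (norm_ne_zero_iff.2 h0) hlim

end Pool.Agent.Results.MP_90f827_nt.ValuesFromPoints
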